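import Pool.Agent.V5helper44.FZ.Stm

/-!
Project FZ, job MUR: from measures on the line to random variables.
-/

set_option autoImplicit false

open Finset MeasureTheory Filter Topology

namespace Pool.Agent.V5helper37.FZ

open Pool.Agent.V5helper44.FZ

lemma ex_add (x y : ℝ) : ex (x + y) = ex x * ex y := by
  unfold ex
  rw [← Complex.exp_add]
  congr 1
  push_cast
  ring

lemma norm_ex (y : ℝ) : ‖ex y‖ = 1 := by
  unfold ex
  have : (2 * Real.pi * y * Complex.I : ℂ) = ((2 * Real.pi * y : ℝ) : ℂ) * Complex.I := by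
    push_cast
    ring
  rw [this, Complex.norm_exp_ofReal_mul_I]

/-- **MUR** -/
theorem t_MUR : S_MUR := by
  intro μ _ C₀ η hη h c v hv θ hθ
  have h1 : ∀ α : ℝ, ex (θ * (c + α * v)) = ex (θ * c) * ex ((θ * v) * α) := fun α => by
    rw [← ex_add]
    congr 1
    ring
  simp only [h1]
  rw [integral_const_mul, norm_mul, norm_ex, one_mul]
  have hpos : 0 < |θ| * v := mul_pos (abs_pos.2 hθ) hv
  have habs : |θ * v| = |θ| * v := by rw [abs_mul, abs_of_pos hv]
  rcases le_or_gt 1 (|θ| * v) with h2 | h2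
  · have h3 := h (θ * v) (by rw [habs]; exact h2)
    rw [habs] at h3
    exact h3.trans (mul_le_mul_of_nonneg_right (le_max_left _ _) (Real.rpow_nonneg hpos.le _))
  · have h4 : ‖∫ α, ex (θ * v * α) ∂μ‖ ≤ 1 := by
      have := norm_integral_le_of_norm_le_const (μ := μ) (f := fun α : ℝ => ex (θ * v * α)) (C := 1)
        (Filter.Eventually.of_forall fun α => (norm_ex _).le)
      simpa using this
    have h5 : 1 ≤ (|θ| * v) ^ (-η) :=
      Real.one_le_rpow_of_pos_of_le_one_of_nonpos hpos h2.le (by linarith)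
    calc ‖∫ α, ex (θ * v * α) ∂μ‖ ≤ 1 := h4
      _ = 1 * 1 := (one_mul 1).symm
      _ ≤ max C₀ 1 * (|θ| * v) ^ (-η) :=
        mul_le_mul (le_max_right _ _) h5 zero_le_one (le_trans zero_le_one (le_max_right _ _))

end Pool.Agent.V5helper37.FZ
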