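import Pool.Agent.V5helper37.FZ.PRO
import Pool.Agent.V5helper37.FZ.MUR

/-!
Project FZ, job POI: Poisson summation for the hat function.
-/

set_option autoImplicit false

open Finset MeasureTheory Filter Topology FourierTransform

namespace Pool.Agent.V5helper37.FZ

open Pool.Agent.V5helper44.FZ

lemma continuous_hat : Continuous hat := by
  unfold hat
  fun_prop

lemma continuous_ex : Continuous ex := by
  unfold ex
  fun_prop

/-- the antiderivative on the right half -/
lemma deriv_right (c : ℂ) (hc : c ≠ 0) (z : ℂ) :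
    HasDerivAt (fun z : ℂ => (1 - z) * Complex.exp (c * z) / c + Complex.exp (c * z) / c ^ 2)
      ((1 - z) * Complex.exp (c * z)) z := by
  have h1 : HasDerivAt (fun z : ℂ => Complex.exp (c * z)) (Complex.exp (c * z) * c) z := by
    have := ((hasDerivAt_id z).const_mul c).cexp
    simpa using this
  have h2 : HasDerivAt (fun z : ℂ => 1 - z) (-1) z := by
    simpa using (hasDerivAt_id z).const_sub 1
  have h3 := ((h2.mul h1).div_const c).add (h1.div_const (c ^ 2))
  refine HasDerivAt.congr_deriv h3 ?_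
  field_simp
  ring

/-- the antiderivative on the left half -/
lemma deriv_left (c : ℂ) (hc : c ≠ 0) (z : ℂ) :
    HasDerivAt (fun z : ℂ => (1 + z) * Complex.exp (c * z) / c - Complex.exp (c * z) / c ^ 2)
      ((1 + z) * Complex.exp (c * z)) z := by
  have h1 : HasDerivAt (fun z : ℂ => Complex.exp (c * z)) (Complex.exp (c * z) * c) z := by
    have := ((hasDerivAt_id z).const_mul c).cexp
    simpa using this
  have h2 : HasDerivAt (fun z : ℂ => 1 + z) 1 z := by
    simpa using (hasDerivAt_id z).const_add 1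
  have h3 := ((h2.mul h1).div_const c).sub (h1.div_const (c ^ 2))
  refine HasDerivAt.congr_deriv h3 ?_
  field_simp
  ring

lemma int_right (c : ℂ) (hc : c ≠ 0) :
    ∫ y in (0 : ℝ)..1, (1 - (y : ℂ)) * Complex.exp (c * y) = (Complex.exp c - c - 1) / c ^ 2 := by
  have h := intervalIntegral.integral_eq_sub_of_hasDerivAt (a := (0 : ℝ)) (b := 1)
    (f := fun y : ℝ => (1 - (y : ℂ)) * Complex.exp (c * y) / c + Complex.exp (c * y) / c ^ 2)
    (f' := fun y : ℝ => (1 - (y : ℂ)) * Complex.exp (c * y))
    (fun x _ => (deriv_right c hc (x : ℂ)).comp_ofReal)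
    (by apply Continuous.intervalIntegrable; fun_prop)
  rw [h]
  simp
  field_simp
  ring

lemma int_left (c : ℂ) (hc : c ≠ 0) :
    ∫ y in (-1 : ℝ)..0, (1 + (y : ℂ)) * Complex.exp (c * y) =
      (Complex.exp (-c) + c - 1) / c ^ 2 := by
  have h := intervalIntegral.integral_eq_sub_of_hasDerivAt (a := (-1 : ℝ)) (b := 0)
    (f := fun y : ℝ => (1 + (y : ℂ)) * Complex.exp (c * y) / c - Complex.exp (c * y) / c ^ 2)
    (f' := fun y : ℝ => (1 + (y : ℂ)) * Complex.exp (c * y))
    (fun x _ => (deriv_left c hc (x : ℂ)).comp_ofReal)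
    (by apply Continuous.intervalIntegrable; fun_prop)
  rw [h]
  simp
  field_simp
  ring

lemma int_right0 : ∫ y in (0 : ℝ)..1, (1 - (y : ℂ)) = 1 / 2 := by
  have h := intervalIntegral.integral_eq_sub_of_hasDerivAt (a := (0 : ℝ)) (b := 1)
    (f := fun y : ℝ => (y : ℂ) - (y : ℂ) ^ 2 / 2)
    (f' := fun y : ℝ => (1 - (y : ℂ)))
    (fun x _ => by
      have h3 : HasDerivAt (fun z : ℂ => z - z ^ 2 / 2) (1 - (x : ℂ)) (x : ℂ) := by
        have := (hasDerivAt_id (x : ℂ)).sub ((hasDerivAt_pow 2 (x : ℂ)).div_const 2)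
        refine HasDerivAt.congr_deriv this ?_
        simp
      exact h3.comp_ofReal)
    (by apply Continuous.intervalIntegrable; fun_prop)
  rw [h]
  norm_num

lemma int_left0 : ∫ y in (-1 : ℝ)..0, (1 + (y : ℂ)) = 1 / 2 := by
  have h := intervalIntegral.integral_eq_sub_of_hasDerivAt (a := (-1 : ℝ)) (b := 0)
    (f := fun y : ℝ => (y : ℂ) + (y : ℂ) ^ 2 / 2)
    (f' := fun y : ℝ => (1 + (y : ℂ)))
    (fun x _ => by
      have h3 : HasDerivAt (fun z : ℂ => z + z ^ 2 / 2) (1 + (x : ℂ)) (x : ℂ) := by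
        have := (hasDerivAt_id (x : ℂ)).add ((hasDerivAt_pow 2 (x : ℂ)).div_const 2)
        refine HasDerivAt.congr_deriv this ?_
        simp
      exact h3.comp_ofReal)
    (by apply Continuous.intervalIntegrable; fun_prop)
  rw [h]
  norm_num

/-- the Fourier transform of the hat function -/
lemma fourier_hat (ξ : ℝ) : ∫ y : ℝ, ((hat y : ℝ) : ℂ) * ex (-(ξ * y)) =
    (((Real.sinc (Real.pi * ξ)) ^ 2 : ℝ) : ℂ) := by
  have hcont : Continuous (fun y : ℝ => ((hat y : ℝ) : ℂ) * ex (-(ξ * y))) := by
    have := continuous_hat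
    have := continuous_ex
    fun_prop
  have hsupp : Function.support (fun y : ℝ => ((hat y : ℝ) : ℂ) * ex (-(ξ * y))) ⊆
      Set.Ioc (-1) 1 := by
    intro y hy
    by_contra hc
    apply hy
    have : 1 ≤ |y| := by
      rw [Set.mem_Ioc, not_and_or] at hc
      rcases hc with h | h
      · rw [abs_of_nonpos (by linarith)]
        linarith
      · rw [abs_of_nonneg (by linarith)]
        linarith
    simp [hat_zero_of this]
  rw [← intervalIntegral.integral_eq_integral_of_support_subset hsupp,
    ← intervalIntegral.integral_add_adjacent_intervals (b := 0) (hcont.intervalIntegrable _ _)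
      (hcont.intervalIntegrable _ _)]
  have e1 : ∫ y in (-1 : ℝ)..0, ((hat y : ℝ) : ℂ) * ex (-(ξ * y)) =
      ∫ y in (-1 : ℝ)..0, (1 + (y : ℂ)) * Complex.exp ((-(2 * Real.pi * ξ * Complex.I)) * y) := by
    apply intervalIntegral.integral_congr
    intro y hy
    rw [Set.uIcc_of_le (by norm_num)] at hy
    have h1 : hat y = 1 + y := by
      rw [hat_of (by rw [abs_le]; constructor <;> linarith [hy.1, hy.2]),
        abs_of_nonpos hy.2]
      ring
    simp only [h1, ex]
    push_cast
    congr 2
    ring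
  have e2 : ∫ y in (0 : ℝ)..1, ((hat y : ℝ) : ℂ) * ex (-(ξ * y)) =
      ∫ y in (0 : ℝ)..1, (1 - (y : ℂ)) * Complex.exp ((-(2 * Real.pi * ξ * Complex.I)) * y) := by
    apply intervalIntegral.integral_congr
    intro y hy
    rw [Set.uIcc_of_le (by norm_num)] at hy
    have h1 : hat y = 1 - y := by
      rw [hat_of (by rw [abs_le]; constructor <;> linarith [hy.1, hy.2]),
        abs_of_nonneg hy.1]
    simp only [h1, ex]
    push_cast
    congr 2
    ring
  rw [e1, e2]
  by_cases hξ : ξ = 0
  · subst hξ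
    simp only [Complex.ofReal_zero, mul_zero, zero_mul, neg_zero, Complex.exp_zero, mul_one,
      Real.sinc_zero]
    rw [int_left0, int_right0]
    norm_num
  · have hpi : (Real.pi : ℂ) ≠ 0 := by exact_mod_cast Real.pi_ne_zero
    have hξc : (ξ : ℂ) ≠ 0 := by exact_mod_cast hξ
    have hc : (-(2 * Real.pi * ξ * Complex.I) : ℂ) ≠ 0 := by
      simp [hpi, hξc, Complex.I_ne_zero]
    rw [int_left _ hc, int_right _ hc, Real.sinc_of_ne_zero (mul_ne_zero Real.pi_ne_zero hξ)]
    have hsum : Complex.exp (-(2 * Real.pi * ξ * Complex.I)) +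
        Complex.exp (-(-(2 * Real.pi * ξ * Complex.I))) - 2 =
        -4 * (Complex.sin (Real.pi * ξ)) ^ 2 := by
      have h1 : Complex.sin (Real.pi * ξ) ^ 2 = 1 / 2 - Complex.cos (2 * (Real.pi * ξ)) / 2 := by
        rw [Complex.cos_two_mul, Complex.sin_sq]
        ring
      rw [h1, Complex.cos]
      have e3 : (2 * (Real.pi * ξ) * Complex.I : ℂ) = -(-(2 * Real.pi * ξ * Complex.I)) := by ring
      have e4 : (-(2 * (Real.pi * ξ)) * Complex.I : ℂ) = -(2 * Real.pi * ξ * Complex.I) := by ring
      rw [e3, e4]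
      ring
    have hI : (Complex.I) ^ 2 = -1 := Complex.I_sq
    have hc2 : (-(2 * Real.pi * ξ * Complex.I) : ℂ) ^ 2 = -4 * (Real.pi * ξ) ^ 2 := by
      rw [neg_sq, mul_pow, hI]
      ring
    rw [← add_div, hc2]
    have h5 : Complex.exp (-(-(2 * Real.pi * ξ * Complex.I))) + -(2 * Real.pi * ξ * Complex.I) - 1 +
        (Complex.exp (-(2 * Real.pi * ξ * Complex.I)) - -(2 * Real.pi * ξ * Complex.I) - 1) =
        -4 * (Complex.sin (Real.pi * ξ)) ^ 2 := by
      rw [← hsum]
      ring
    rw [h5]
    push_cast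
    field_simp

lemma summable_sinc (θ : ℝ) : Summable fun n : ℤ => (Real.sinc (Real.pi * (θ + n))) ^ 2 := by
  have h := (Real.summable_one_div_int_add_rpow θ 2).2 (by norm_num)
  have hfin : (Set.Finite {n : ℤ | (n : ℝ) + θ = 0}) := by
    apply Set.Subsingleton.finite
    intro a ha b hb
    simp only [Set.mem_setOf_eq] at ha hb
    have : (a : ℝ) = b := by linarith
    exact_mod_cast this
  refine Summable.of_norm_bounded_eventually (g := fun n : ℤ => 1 / |(n : ℝ) + θ| ^ (2 : ℝ)) h ?_
  rw [Filter.eventually_cofinite]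
  refine hfin.subset fun n hn => ?_
  simp only [Set.mem_setOf_eq] at hn ⊢
  by_contra hne
  apply hn
  have hne' : θ + n ≠ 0 := by rwa [add_comm]
  rw [Real.norm_eq_abs, abs_of_nonneg (sq_nonneg _),
    Real.sinc_of_ne_zero (mul_ne_zero Real.pi_ne_zero hne'), div_pow]
  have h2 : |(n : ℝ) + θ| ^ (2 : ℝ) = (θ + n) ^ 2 := by
    rw [show ((2 : ℝ)) = ((2 : ℕ) : ℝ) by norm_num, Real.rpow_natCast, sq_abs, add_comm]
  rw [h2]
  have hpos : 0 < (θ + n) ^ 2 := by positivity
  apply div_le_div₀ zero_le_one (Real.sin_sq_le_one _) hpos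
  rw [mul_pow]
  have hpi : 1 ≤ Real.pi ^ 2 := by
    have := Real.pi_gt_three
    nlinarith
  nlinarith

/-- **POI** -/
theorem t_POI : S_POI := by
  intro θ x M hx0 hxM
  set f : ℝ → ℂ := fun y => ((hat y : ℝ) : ℂ) * ex (-(θ * y)) with hf
  have hfc : Continuous f := by
    have := continuous_hat
    have := continuous_ex
    fun_prop
  have hfO : Asymptotics.IsBigO (cocompact ℝ) f fun x : ℝ => |x| ^ (-2 : ℝ) := by
    have h0 : f =ᶠ[cocompact ℝ] 0 := by
      rw [Filter.EventuallyEq, Filter.Eventually, Filter.mem_cocompact]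
      refine ⟨Set.Icc (-1) 1, isCompact_Icc, fun y hy => ?_⟩
      have : 1 ≤ |y| := by
        by_contra hlt
        push Not at hlt
        exact hy (abs_le.1 hlt.le)
      simp [hf, hat_zero_of this]
    exact h0.trans_isBigO (Asymptotics.isBigO_zero _ _)
  have hF : ∀ n : ℤ, 𝓕 f n = (((Real.sinc (Real.pi * (θ + n))) ^ 2 : ℝ) : ℂ) := by
    intro n
    rw [Real.fourier_real_eq_integral_exp_smul, ← fourier_hat]
    congr 1
    funext y
    simp only [hf, smul_eq_mul]
    have : ex (-((θ + n) * y)) = Complex.exp (((-2 * Real.pi * y * n : ℝ) : ℂ) * Complex.I) *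
        ex (-(θ * y)) := by
      unfold ex
      rw [← Complex.exp_add]
      congr 1
      push_cast
      ring
    rw [this]
    ring
  have hsum : Summable fun n : ℤ => (((Real.sinc (Real.pi * (θ + n))) ^ 2 : ℝ) : ℂ) :=
    Complex.ofRealCLM.summable (summable_sinc θ)
  have hP := Real.tsum_eq_tsum_fourier_of_rpow_decay_of_summable hfc (b := 2) (by norm_num) hfO
    (by simpa only [hF] using hsum) x
  simp only [hF] at hP
  have hfo : ∀ n : ℤ, fourier n (x : UnitAddCircle) = ex (n * x) := by
    intro n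
    rw [fourier_coe_apply]
    unfold ex
    congr 1
    push_cast
    ring
  simp only [hfo] at hP
  -- the right side
  have hs2 : Summable fun n : ℤ => (((Real.sinc (Real.pi * (θ + n))) ^ 2 : ℝ) : ℂ) * ex (n * x) := by
    refine Summable.of_norm_bounded (summable_sinc θ) fun n => ?_
    rw [norm_mul, norm_ex, mul_one, Complex.norm_real, Real.norm_eq_abs,
      abs_of_nonneg (sq_nonneg _)]
  have hR := (hs2.hasSum).mul_left (ex (θ * x))
  rw [← hP] at hR
  -- the left side
  have hL : ∑' n : ℤ, f (x + n) = ∑ v ∈ range (M + 1), f (x - v) := by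
    rw [tsum_eq_sum (s := (range (M + 1)).map ⟨fun v : ℕ => -(v : ℤ), fun a b hab => by
      simpa using hab⟩)]
    · rw [sum_map]
      apply sum_congr rfl
      intro v _
      simp only [Function.Embedding.coeFn_mk]
      congr 1
      push_cast
      ring
    · intro n hn
      have h1 : 1 ≤ |x + n| := by
        rcases lt_or_ge 0 n with h | h
        · have : (1 : ℝ) ≤ n := by exact_mod_cast h
          rw [abs_of_nonneg (by linarith)]
          linarith
        · have h3 : (M : ℤ) + 1 ≤ -n := by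
            by_contra hlt
            push Not at hlt
            apply hn
            rw [Finset.mem_map]
            refine ⟨(-n).toNat, ?_, ?_⟩
            · rw [mem_range]
              omega
            · simp only [Function.Embedding.coeFn_mk]
              omega
          have h4 : (M : ℝ) + 1 ≤ -(n : ℝ) := by exact_mod_cast h3
          rw [abs_of_nonpos (by linarith)]
          linarith
      simp [hf, hat_zero_of h1]
  rw [hL] at hR
  have e1 : (fun j : ℤ => (((Real.sinc (Real.pi * (θ + j))) ^ 2 : ℝ) : ℂ) * ex ((θ + j) * x)) =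
      fun j : ℤ => ex (θ * x) * ((((Real.sinc (Real.pi * (θ + j))) ^ 2 : ℝ) : ℂ) * ex (j * x)) := by
    funext j
    rw [mul_left_comm, ← ex_add]
    congr 2
    ring
  have e2 : ∑ v ∈ range (M + 1), ((hat (x - v) : ℝ) : ℂ) * ex (θ * v) =
      ex (θ * x) * ∑ v ∈ range (M + 1), f (x - v) := by
    rw [mul_sum]
    apply sum_congr rfl
    intro v _
    simp only [hf]
    rw [mul_left_comm, ← ex_add]
    congr 2
    ring
  rw [e1, e2]
  exact hR

end Pool.Agent.V5helper37.FZ
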