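import Pool.Agent.V5helper44.FZ.Stm

/-!
Project FZ, job PRO: simple properties of the rounding.
-/

set_option autoImplicit false

open Finset MeasureTheory Filter Topology

namespace Pool.Agent.V5helper37.FZ

open Pool.Agent.V5helper44.FZ

lemma hat_nonneg (y : ℝ) : 0 ≤ hat y := le_max_left _ _

lemma hat_le_one (y : ℝ) : hat y ≤ 1 := by
  unfold hat
  exact max_le zero_le_one (by linarith [abs_nonneg y])

lemma hat_zero_of {y : ℝ} (h : 1 ≤ |y|) : hat y = 0 := by
  unfold hat
  exact max_eq_left (by linarith)

lemma hat_of {y : ℝ} (h : |y| ≤ 1) : hat y = 1 - |y| := by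
  unfold hat
  exact max_eq_right (by linarith)

lemma measurable_hat : Measurable hat := by
  unfold hat
  fun_prop

lemma hat_sum (M : ℕ) : ∀ x : ℝ, 0 ≤ x → x ≤ M → ∑ v ∈ range (M + 1), hat (x - v) = 1 := by
  induction M with
  | zero =>
    intro x h0 h1
    have hx : x = 0 := le_antisymm (by simpa using h1) h0
    subst hx
    simp [hat]
  | succ M ih =>
    intro x h0 h1
    rw [sum_range_succ]
    push_cast at h1 ⊢
    rcases le_or_gt x M with hx | hx
    · rw [ih x h0 hx, hat_zero_of, add_zero]
      rw [abs_sub_comm, abs_of_nonneg (by linarith)]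
      linarith
    · rw [sum_range_succ, sum_eq_zero, zero_add, hat_of, hat_of, abs_of_nonneg (by linarith),
        abs_sub_comm, abs_of_nonneg (by linarith)]
      · ring
      · rw [abs_sub_comm, abs_of_nonneg (by linarith)]
        linarith
      · rw [abs_of_nonneg (by linarith)]
        linarith
      · intro v hv
        have hv' : (v : ℝ) + 1 ≤ M := by exact_mod_cast mem_range.1 hv
        apply hat_zero_of
        rw [abs_of_nonneg (by linarith)]
        linarith

section

variable {Ω : Type} [MeasurableSpace Ω] (P : Measure Ω) [IsProbabilityMeasure P] (X : Ω → ℝ)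

lemma measurable_hatX (hX : Measurable X) (v : ℕ) : Measurable fun ω => hat (X ω - v) :=
  measurable_hat.comp (hX.sub_const _)

lemma integrable_hatX (hX : Measurable X) (v : ℕ) : Integrable (fun ω => hat (X ω - v)) P := by
  refine Integrable.of_bound (measurable_hatX X hX v).aestronglyMeasurable 1 ?_
  refine Filter.Eventually.of_forall fun ω => ?_
  rw [Real.norm_eq_abs, abs_of_nonneg (hat_nonneg _)]
  exact hat_le_one _

lemma sum_pr (hX : Measurable X) (s : Finset ℕ) :
    ∑ v ∈ s, pr P X v = ∫ ω, ∑ v ∈ s, hat (X ω - v) ∂P := by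
  unfold pr
  rw [integral_finset_sum]
  intro v _
  exact integrable_hatX P X hX v

end

/-- **PRO** -/
theorem t_PRO : S_PRO := by
  classical
  intro Ω _ P _ X hX M hM
  refine ⟨?_, ?_, ?_, ?_⟩
  · intro v
    exact integral_nonneg fun ω => hat_nonneg _
  · rw [sum_pr P X hX]
    have : ∀ ω, ∑ v ∈ range (M + 1), hat (X ω - v) = 1 := fun ω =>
      hat_sum M (X ω) (hM ω).1 (hM ω).2
    simp [this]
  · intro a r
    rw [sum_pr P X hX]
    have hms : MeasurableSet {ω | |X ω - a| ≤ r + 1} :=
      measurableSet_le (hX.sub_const a).abs measurable_const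
    calc ∫ ω, ∑ v ∈ (range (M + 1)).filter (fun v : ℕ => |(v : ℝ) - a| ≤ r), hat (X ω - v) ∂P
        ≤ ∫ ω, Set.indicator {ω | |X ω - a| ≤ r + 1} (fun _ => (1 : ℝ)) ω ∂P := by
          apply integral_mono
          · exact integrable_finset_sum _ fun v _ => integrable_hatX P X hX v
          · exact (integrable_const (1 : ℝ)).indicator hms
          · intro ω
            by_cases hω : |X ω - a| ≤ r + 1
            · have h1 : Set.indicator {ω | |X ω - a| ≤ r + 1} (fun _ => (1 : ℝ)) ω = 1 :=
                Set.indicator_of_mem (s := {ω | |X ω - a| ≤ r + 1}) hω _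
              show _ ≤ Set.indicator {ω | |X ω - a| ≤ r + 1} (fun _ => (1 : ℝ)) ω
              rw [h1, ← hat_sum M (X ω) (hM ω).1 (hM ω).2]
              exact sum_le_sum_of_subset_of_nonneg (filter_subset _ _) fun v _ _ => hat_nonneg _
            · have h1 : Set.indicator {ω | |X ω - a| ≤ r + 1} (fun _ => (1 : ℝ)) ω = 0 :=
                Set.indicator_of_notMem (s := {ω | |X ω - a| ≤ r + 1}) hω _
              show _ ≤ Set.indicator {ω | |X ω - a| ≤ r + 1} (fun _ => (1 : ℝ)) ω
              rw [h1]
              apply le_of_eq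
              apply sum_eq_zero
              intro v hv
              have hv' := (mem_filter.1 hv).2
              apply hat_zero_of
              by_contra hlt
              push Not at hlt hω
              have h2 : |X ω - a| ≤ |X ω - v| + |(v : ℝ) - a| := by
                have := abs_add_le (X ω - v) ((v : ℝ) - a)
                simpa using this
              linarith
      _ = P.real {ω | |X ω - a| ≤ r + 1} := by
          exact integral_indicator_one hms
  · intro B D hD
    rw [sum_pr P X hX]
    set f : Ω → ℝ := fun ω => ∑ v ∈ (range (M + 1)).filter (fun v => v ∈ B), hat (X ω - v) with hf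
    have hfi : Integrable f P := integrable_finset_sum _ fun v _ => integrable_hatX P X hX v
    have hf0 : 0 ≤ᵐ[P] f := Filter.Eventually.of_forall fun ω => sum_nonneg fun v _ => hat_nonneg _
    have hmk := mul_meas_ge_le_integral_of_nonneg hf0 hfi (1 / 2)
    have hsub : D ⊆ {ω | 1 / 2 ≤ f ω} := by
      intro ω hω
      have hx0 := (hM ω).1
      have hxM := (hM ω).2
      set v : ℕ := ⌊X ω + 1 / 2⌋₊ with hv
      have h1 : (v : ℝ) ≤ X ω + 1 / 2 := Nat.floor_le (by linarith)
      have h2 : X ω + 1 / 2 < v + 1 := Nat.lt_floor_add_one _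
      have habs : |X ω - v| ≤ 1 / 2 := by
        rw [abs_le]
        constructor <;> linarith
      have hvB := hD ω hω v habs
      have hvM : v ≤ M := by
        have : (v : ℝ) < M + 1 := by linarith
        have : v < M + 1 := by exact_mod_cast this
        omega
      show 1 / 2 ≤ f ω
      calc (1 / 2 : ℝ) ≤ hat (X ω - v) := by
            rw [hat_of (by linarith)]
            linarith
        _ ≤ f ω := by
            apply single_le_sum (f := fun v : ℕ => hat (X ω - v)) (fun v _ => hat_nonneg _)
            exact mem_filter.2 ⟨mem_range.2 (by omega), hvB⟩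
    have hmono : P.real D ≤ P.real {ω | 1 / 2 ≤ f ω} := measureReal_mono hsub
    linarith

end Pool.Agent.V5helper37.FZ
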